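import Pool.Agent.helper12.PFS.Spec2

set_option autoImplicit false

/-! Row pfs:NUM (helper79). -/

namespace Pool.Agent.PFS

theorem NUM_WW (m : ℕ) (h3 : ¬ 3 ∣ m) :
    WW m = ∏ p ∈ m.primeFactors, (p - 3) ^ m.factorization p := by
  unfold WW
  rw [Finset.prod_list_map_count]
  refine Finset.prod_congr rfl fun p hp => ?_
  have h1 : p ≠ 3 := by
    rintro rfl
    exact h3 (Nat.dvd_of_mem_primeFactorsList (List.mem_toFinset.1 hp))
  rw [if_neg h1, Nat.primeFactorsList_count_eq]

theorem NUM : NUM_stmt := by
  intro q n m a hm h3 hn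
  have hp3 : Nat.Prime 3 := Nat.prime_three
  have hne : ∀ p ∈ m.primeFactors, p ≠ 3 := by
    rintro p hp rfl
    exact h3 (Nat.dvd_of_mem_primeFactors hp)
  rw [NUM_WW m h3]
  rcases Nat.eq_zero_or_pos a with h0 | h0
  · subst h0
    rw [pow_zero, one_mul] at hn
    subst hn
    rw [pow_zero, mul_one]
    refine le_of_eq ?_
    congr 1
    refine Finset.prod_congr rfl fun p hp => ?_
    rw [if_neg (hne p hp)]
  · have hcop : Nat.Coprime (3 ^ a) m :=
      Nat.Coprime.pow_left a ((Nat.Prime.coprime_iff_not_dvd hp3).2 h3)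
    have hpf : n.primeFactors = insert 3 m.primeFactors := by
      rw [hn, Nat.Coprime.primeFactors_mul hcop, Nat.primeFactors_prime_pow h0.ne' hp3]
      rfl
    have hf : ∀ p, n.factorization p = (if p = 3 then a else 0) + m.factorization p := by
      intro p
      rw [hn, Nat.factorization_mul (pow_ne_zero a (by norm_num)) hm, Finsupp.add_apply,
        hp3.factorization_pow, Finsupp.single_apply]
      congr 1
      by_cases h : p = 3
      · rw [if_pos h, if_pos h.symm]
      · rw [if_neg h, if_neg (Ne.symm h)]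
    have hf3 : n.factorization 3 = a := by
      rw [hf 3, if_pos rfl, Nat.factorization_eq_zero_of_not_dvd h3, add_zero]
    have hnot : 3 ∉ m.primeFactors := fun h => hne 3 h rfl
    rw [hpf, Finset.prod_insert hnot, if_pos rfl, hf3]
    have h1 : ∏ p ∈ m.primeFactors,
        (if p = 3 then 2 * 3 ^ (a - 1) else (p - 3) ^ n.factorization p) =
        ∏ p ∈ m.primeFactors, (p - 3) ^ m.factorization p := by
      refine Finset.prod_congr rfl fun p hp => ?_
      rw [if_neg (hne p hp), hf p, if_neg (hne p hp), zero_add]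
    rw [h1, ← mul_assoc]
    refine Nat.mul_le_mul_right _ ?_
    have h2 : 2 * 3 ^ (a - 1) = Nat.totient (3 ^ a) := by
      rw [Nat.totient_prime_pow hp3 h0]
      ring
    rw [h2]
    exact Nat.totient_super_multiplicative q (3 ^ a)

end Pool.Agent.PFS
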