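import Pool.Agent.helper12.PFS.Spec

set_option autoImplicit false

namespace Pool.Agent.PFS

open scoped Classical in
theorem STP_card {X : Type} [Fintype X] (P : X → Prop) :
    Nat.card {x // P x} = ∑ x, if P x then 1 else 0 := by
  rw [Nat.card_eq_fintype_card, Fintype.card_subtype, Finset.card_filter]

theorem STP_avg {G Θ : Type} [Finite G] [Finite Θ] [Nonempty Θ] (P : Θ → G → Prop) (A : G → Prop) (K W n : ℕ)
    (hW : 0 < W) (hA : Nat.card {g // A g} = W * n)
    (h : ∀ g, A g → K * Nat.card Θ ≤ W * Nat.card {θ // P θ g}) :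
    ∃ θ, K * n ≤ Nat.card {g // P θ g} := by
  classical
  have := Fintype.ofFinite G
  have := Fintype.ofFinite Θ
  by_contra hcon
  push Not at hcon
  have h1 : ∑ θ, Nat.card {g // P θ g} < ∑ _θ : Θ, K * n :=
    Finset.sum_lt_sum_of_nonempty Finset.univ_nonempty fun θ _ => hcon θ
  rw [Finset.sum_const, Finset.card_univ, ← Nat.card_eq_fintype_card, smul_eq_mul] at h1
  have h2 : ∑ θ, Nat.card {g // P θ g} = ∑ g, Nat.card {θ // P θ g} := by
    have e1 : ∀ θ, Nat.card {g // P θ g} = ∑ g, if P θ g then 1 else 0 := fun θ => STP_card _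
    have e2 : ∀ g, Nat.card {θ // P θ g} = ∑ θ, if P θ g then 1 else 0 := fun g => STP_card fun θ => P θ g
    rw [Finset.sum_congr rfl fun θ _ => e1 θ, Finset.sum_congr rfl fun g _ => e2 g, Finset.sum_comm]
  have h3 : W * (Nat.card Θ * (K * n)) ≤ W * ∑ g, Nat.card {θ // P θ g} := by
    calc W * (Nat.card Θ * (K * n)) = (W * n) * (K * Nat.card Θ) := by ring
      _ = (∑ g, if A g then 1 else 0) * (K * Nat.card Θ) := by rw [← hA, STP_card A]
      _ = ∑ g, (if A g then 1 else 0) * (K * Nat.card Θ) := by rw [Finset.sum_mul]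
      _ ≤ ∑ g, W * Nat.card {θ // P θ g} := by
          refine Finset.sum_le_sum fun g _ => ?_
          by_cases hg : A g
          · rw [if_pos hg, one_mul]; exact h g hg
          · rw [if_neg hg, zero_mul]; exact Nat.zero_le _
      _ = W * ∑ g, Nat.card {θ // P θ g} := by rw [Finset.mul_sum]
  have h4 := Nat.le_of_mul_le_mul_left h3 hW
  rw [← h2] at h4
  exact absurd h1 (not_lt.2 h4)

theorem STP_pr {p : ℕ} {G Q V : Type} [Group G] [Group Q] [AddCommGroup V] [Module (ZMod p) V]
    (D : Ext p G Q V) (v : Q × V) : D.pr (D.E v) = v.1 := by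
  rw [Ext.E_apply, map_mul, D.pr_em, D.pr_sec, one_mul]

theorem STP_A {p : ℕ} {G Q V : Type} [Group G] [Group Q] [AddCommGroup V] [Module (ZMod p) V]
    (D : Ext p G Q V) (f : Q → Q) :
    Nat.card {g : G // Gd f (Equiv.mulRight (D.pr g))} = Nat.card V * ng f := by
  have e : {g : G // Gd f (Equiv.mulRight (D.pr g))} ≃ {q : Q // Gd f (Equiv.mulRight q)} × V :=
    { toFun := fun g => (⟨D.pr g.1, g.2⟩, (D.E.symm g.1).2)
      invFun := fun v => ⟨D.E (v.1.1, v.2), by rw [STP_pr]; exact v.1.2⟩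
      left_inv := by
        rintro ⟨g, hg⟩
        apply Subtype.ext
        show D.E (D.pr g, (D.E.symm g).2) = g
        have h1 : D.pr g = (D.E.symm g).1 := by
          have := STP_pr D (D.E.symm g)
          rwa [Equiv.apply_symm_apply] at this
        rw [h1]
        exact D.E.apply_symm_apply g
      right_inv := by
        rintro ⟨⟨q, hq⟩, u⟩
        apply Prod.ext
        · apply Subtype.ext
          show D.pr (D.E (q, u)) = q
          rw [STP_pr]
        · show (D.E.symm (D.E (q, u))).2 = u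
          rw [Equiv.symm_apply_apply] }
  rw [Nat.card_congr e, Nat.card_prod, ng, mul_comm]

theorem STP_arith (m c : ℕ) (hm : 1 ≤ m) (p : ℕ) (hp : 2 * m = p - 1) :
    (m - 1) * ((p - 1) * c) = m * ((p - 3) * c) := by
  obtain ⟨a, rfl⟩ : ∃ a, m = a + 1 := ⟨m - 1, by omega⟩
  have h1 : p - 3 = 2 * a := by omega
  rw [← hp, h1, Nat.add_sub_cancel]
  ring

theorem STP (h1 : LC_stmt) (h2 : STG_stmt) (h3 : NSC_stmt) (h4 : FA3_stmt) (h5 : REP_stmt) (h6 : RM_stmt)
    (h7 : CJ_stmt) : STP_stmt := by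
  intro p _ G Q V _ _ _ _ _ _ _ D k f hp hcV hodd hf hQ
  classical
  have hpp : p.Prime := Fact.out
  have hp3 : 3 ≤ p := by
    have := hpp.two_le
    omega
  have hm := h3 p hp
  have hm1 : 1 ≤ Nat.card (NS p) := by omega
  have hfin : Finite (NS p) := inferInstanceAs (Finite {a : ZMod p // ¬ IsSquare a})
  have hne : Nonempty (NS p) := (Nat.card_pos_iff.1 (by omega)).1
  obtain ⟨Ω, hΩf, hΩn, σ, hσ, hFam⟩ := h4 p V k hp hcV
  obtain ⟨r, hr⟩ := h5 Q 1 f hf.inv
  have := Fintype.ofFinite Q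
  have hVpos : 0 < Nat.card V := by rw [hcV]; exact pow_pos hpp.pos _
  set F' : Ω × (Q → NS p) × (Q → V) → G → G := fun θ g =>
    D.E (lft 1 f r (σ θ.1) (fun x => NS.val (θ.2.1 x)) θ.2.2 (D.E.symm g)) with hF'
  have hSt : ∀ θ, StG (F' θ) := by
    intro θ
    exact h2 p G Q V D f r (σ θ.1) (fun x => NS.val (θ.2.1 x)) θ.2.2 hodd hf hr (hσ θ.1)
      fun x => (θ.2.1 x).2
  obtain ⟨θ, hθ⟩ := STP_avg (fun θ g => Gd (F' θ) (Equiv.mulRight g))
    (fun g => Gd f (Equiv.mulRight (D.pr g))) ((p - 3) ^ (k + 1)) (Nat.card V) (ng f) hVpos (STP_A D f) (by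
      intro g hg
      obtain ⟨t, ht⟩ := h6 p G Q V D g
      have hq1 : ∀ x : Q, (Equiv.mulRight (D.pr g)) x ≠ x := by
        intro x hx
        have hx2 : x * D.pr g = x := hx
        have hq : D.pr g = 1 := mul_eq_left.1 hx2
        rw [hq] at hg
        have hid : ∀ y, rho f (Equiv.mulRight (1 : Q)) y = y := by
          intro y
          show f (f (y * (1 : Q)⁻¹) * 1) = y
          rw [inv_one, mul_one, mul_one, hf.inv.inv]
        have hit : ∀ (n : ℕ) (y : Q), (rho f (Equiv.mulRight (1 : Q)))^[n] y = y := by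
          intro n y
          induction n with
          | zero => rfl
          | succ n ih => rw [Function.iterate_succ_apply, hid, ih]
        have hsub : ∀ a b : Q, a = b := by
          intro a b
          obtain ⟨n, hn⟩ := hg a b
          rw [hit] at hn
          exact hn
        have : Subsingleton Q := ⟨hsub⟩
        have h8 : Nat.card Q ≤ 1 := Finite.card_le_one_iff_subsingleton.2 this
        omega
      have hLC := h1 Q V (ZMod p) Ω (NS p) NS.val 1 f r (Equiv.mulRight (D.pr g)) 1 t σ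
        ((p - 1) * (p - 3) ^ k * Nat.card Ω) (fun a b hab => Subtype.ext hab)
        (fun s hs => s.2 (by
          have : (s.1 : ZMod p) = 0 := hs
          rw [this]; exact IsSquare.zero)) hf.inv hr hg
        (by rw [← Nat.card_eq_fintype_card]; exact hQ) (fun _ => hq1) (fun ω => (hσ ω).inv) hFam
      have hle : Nat.card {q : Ω × (Q → NS p) × (Q → V) //
          Gd (lft 1 f r (σ q.1) (fun x => NS.val (q.2.1 x)) q.2.2) (tl (Equiv.mulRight (D.pr g)) (1 : (ZMod p)ˣ) t)}
          ≤ Nat.card {θ // Gd (F' θ) (Equiv.mulRight g)} := by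
        refine Nat.card_le_card_of_injective
          (fun θ => ⟨θ.1, ?_⟩) ?_
        · refine h7 (Q × V) G D.E (lft 1 f r (σ θ.1.1) (fun x => NS.val (θ.1.2.1 x)) θ.1.2.2)
            (tl (Equiv.mulRight (D.pr g)) (1 : (ZMod p)ˣ) t) (Equiv.mulRight g) ?_ θ.2
          intro v
          exact ht v
        · intro a b hab
          exact Subtype.ext (congrArg (fun z => z.1) hab)
      have hcard : Nat.card (Ω × (Q → NS p) × (Q → V))
          = Nat.card Ω * (Nat.card (NS p) * Nat.card V) ^ Fintype.card Q := by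
        rw [Nat.card_prod, Nat.card_prod, Nat.card_fun, Nat.card_fun, mul_pow, Nat.card_eq_fintype_card (α := Q)]
      refine Nat.le_of_mul_le_mul_left (?_ : Nat.card (NS p) * _ ≤ Nat.card (NS p) * _) (by omega)
      calc Nat.card (NS p) * ((p - 3) ^ (k + 1) * Nat.card (Ω × (Q → NS p) × (Q → V)))
          = (Nat.card (NS p) * ((p - 3) * ((p - 3) ^ k * Nat.card Ω)))
            * (Nat.card (NS p) * Nat.card V) ^ Fintype.card Q := by
            rw [hcard, pow_succ]; ring
        _ = (Nat.card (NS p) - 1) * ((p - 1) * (p - 3) ^ k * Nat.card Ω)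
            * (Nat.card (NS p) * Nat.card V) ^ Fintype.card Q := by
            rw [← STP_arith _ _ hm1 p hm]; ring
        _ ≤ Nat.card (NS p) * Nat.card V * Nat.card {q : Ω × (Q → NS p) × (Q → V) //
          Gd (lft 1 f r (σ q.1) (fun x => NS.val (q.2.1 x)) q.2.2) (tl (Equiv.mulRight (D.pr g)) (1 : (ZMod p)ˣ) t)} := hLC
        _ ≤ Nat.card (NS p) * Nat.card V * Nat.card {θ // Gd (F' θ) (Equiv.mulRight g)} :=
            Nat.mul_le_mul_left _ hle
        _ = Nat.card (NS p) * (Nat.card V * Nat.card {θ // Gd (F' θ) (Equiv.mulRight g)}) := by ring)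
  exact ⟨F' θ, hSt θ, hθ⟩

end Pool.Agent.PFS
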